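import Mathlib
import Pool.Agent.Helper88.EL.Ones

set_option autoImplicit false

/-!
# Computable sequences of digits which satisfy the Lenstra-Pomerance-Wagstaff law

For a sequence `b` of binary digits let `num b p` be the integer with the `p` digits
`b 0, …, b (p - 1)` (the most significant first), and let `ones h b p` be the integer with `p` digits
of which the first `p / (h * (Nat.log 2 p + 1))` are equal to `1` and the others are the first digits
of `b`.  If all the digits of `b` are `1` both are the Mersenne number `2 ^ p - 1`.  For a sequence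
`N` of integers and a set of primes, given by `s`, let `M N s n` be the number of primes `p ≤ n` of
the set for which the `p`-rough part of `N p` is prime, and let `V s n` be the sum of `log p / p`
over the primes `p ≤ n` of the set.

It is known that the law asked for holds for almost every sequence `b`, but this does not give a
single sequence.  We prove that there are **computable** sequences `b` of digits for which
`M (num b) n = (e ^ γ / log 2) log n + O((log n) ^ (1/2) (log log n) ^ (5/2))`, and the same for
`ones h b`, with the law `(e ^ γ / log 2) log n / φ (q)` in every residue class `a` modulo `q` prime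
to `q`.  The first `k` digits of `b` can be prescribed arbitrarily, for every `k`.  Moreover, for
every computable sequence of sets `s i` with `V (s i) n → ∞` and of leading blocks `A i`, a single
computable sequence `b` satisfies the law for all these sets and leading blocks.
-/

namespace Pool.Agent.Results.MP_9b2bac_nt.ComputableDigits

open Filter Topology Asymptotics
open Pool.Agent.Helper88.EL (num roughPart M V Lead free ones)

/-- **Computable sequences of digits which satisfy the law.** -/
theorem result :
    -- the leading digits of `ones h b p` are those of the Mersenne number `2 ^ p - 1`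
    (∀ (h : ℕ) (b : ℕ → Bool) (p : ℕ), ones h b p < 2 ^ p ∧
      ones h b p / 2 ^ free h p = (2 ^ p - 1) / 2 ^ free h p) ∧
    ∃ h0 : ℕ, 0 < h0 ∧ ∀ h : ℕ, h0 ≤ h →
    -- prescribed first digits
    ∀ (c : ℕ → Bool) (k : ℕ),
    -- a computable sequence of leading blocks and of sets of primes
    ∀ (A m : ℕ → ℕ → ℕ) (s : ℕ → ℕ → Bool), Computable₂ A → Computable₂ m → Computable₂ s →
    (∀ i, Lead (A i) (m i)) →
    (∀ i, ∀ δ : ℝ, 0 < δ → ∀ᶠ p : ℕ in atTop, (1 - δ) * p ≤ m i p) →
    (∀ i, Tendsto (V (s i)) atTop atTop) →
    ∃ b : ℕ → Bool, Computable b ∧ (∀ i < k, b i = c i) ∧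
      -- the law with an error term
      ((fun n : ℕ => (M (num b) (fun _ => true) n : ℝ) -
          Real.exp Real.eulerMascheroniConstant / Real.log 2 * Real.log n) =O[atTop]
        fun n : ℕ => Real.sqrt (Real.log n) * (Real.log (Real.log n)) ^ ((5 : ℝ) / 2)) ∧
      ((fun n : ℕ => (M (ones h b) (fun _ => true) n : ℝ) -
          Real.exp Real.eulerMascheroniConstant / Real.log 2 * Real.log n) =O[atTop]
        fun n : ℕ => Real.sqrt (Real.log n) * (Real.log (Real.log n)) ^ ((5 : ℝ) / 2)) ∧
      -- the law in all residue classes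
      (∀ q a : ℕ, 1 ≤ q → a.Coprime q →
        Tendsto (fun n : ℕ => (M (num b) (fun p => decide (p % q = a % q)) n : ℝ) / Real.log n)
          atTop (𝓝 (Real.exp Real.eulerMascheroniConstant / Real.log 2 / Nat.totient q)) ∧
        Tendsto (fun n : ℕ => (M (ones h b) (fun p => decide (p % q = a % q)) n : ℝ) / Real.log n)
          atTop (𝓝 (Real.exp Real.eulerMascheroniConstant / Real.log 2 / Nat.totient q))) ∧
      -- the law for the given sets and leading blocks
      (∀ i, Tendsto (fun n : ℕ => (M (num b) (s i) n : ℝ) / V (s i) n) atTop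
          (𝓝 (Real.exp Real.eulerMascheroniConstant / Real.log 2)) ∧
        Tendsto (fun n : ℕ => (M (fun p => A i p + num b (m i p)) (s i) n : ℝ) / V (s i) n) atTop
          (𝓝 (Real.exp Real.eulerMascheroniConstant / Real.log 2))) := by
  refine ⟨fun h b p => ⟨(Pool.Agent.Helper88.EL.ones_lead b p).2,
    (Pool.Agent.Helper88.EL.ones_lead b p).1⟩, ?_⟩
  obtain ⟨h0, hh0, hones⟩ := Pool.Agent.Helper88.EL.ones_err
  refine ⟨h0, hh0, fun h hh c k A m s hA hm hs hL hbig hV => ?_⟩
  have hhpos : 0 < h := by omega
  -- the prefix is followed by a digit `1`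
  set c' : ℕ → Bool := fun i => if i < k then c i else true with hc'
  have ha : 1 ≤ num c' (k + 1) := by
    have e : num c' (k + 1) = 2 * num c' k + (c' k).toNat := rfl
    have e2 : c' k = true := by simp [hc']
    rw [e, e2]
    simp
  have hLo := Pool.Agent.Helper88.EL.lead_ones hhpos
  have hbo : ∀ δ : ℝ, 0 < δ → ∀ᶠ p : ℕ in atTop, (1 - δ) * p ≤ free h p :=
    Pool.Agent.Helper88.EL.hbig_of_Big (κ := Real.log 2)
      (Pool.Agent.Helper88.EL.big_ones hhpos (by
        have h1 : (1 : ℝ) ≤ h := by exact_mod_cast hhpos
        have h2 : 0 < Real.log 2 := Real.log_pos (by norm_num)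
        nlinarith))
  have hss := Pool.Agent.Helper88.EL.comp_seqs hs
  have hsV := Pool.Agent.Helper88.EL.seqs_V hV
  have t1 := Pool.Agent.Helper88.EL.plain_err (k := k + 1) ha
  have t2 := hones h hh
  have t3 := Pool.Agent.Helper88.EL.plain_testU (k := k + 1) ha hss hsV
  have t4 := Pool.Agent.Helper88.EL.lead_testU (A := fun _ p => 2 ^ p - 2 ^ free h p)
    (m := fun _ => free h) (hLo.cA.comp Computable.snd) (hLo.cm.comp Computable.snd) hss
    (fun _ => hLo) (fun _ => hbo) hsV
  have t5 := Pool.Agent.Helper88.EL.lead_testU hA hm hs hL hbig hV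
  obtain ⟨b, hb, hbc, ⟨h1, h2⟩, ⟨h3, h4⟩, h5⟩ :=
    ((t1.and t2).and ((t3.and t4).and t5)).comp c' (k + 1)
  have hnum : num b (k + 1) = num c' (k + 1) :=
    Pool.Agent.Helper88.EL.num_congr hbc
  have h1' := h1 hnum
  have h3' := h3 hnum
  refine ⟨b, hb, fun i hi => ?_, h1', h2, fun q a hq hqa => ?_, fun i => ⟨?_, h5 i⟩⟩
  · rw [hbc i (by omega)]
    simp only [hc']
    rw [if_pos hi]
  · have e := (Pool.Agent.Helper88.EL.seqs_odd s q a).1 ⟨hq, hqa⟩
    have g1 := h3' (2 * Nat.pair q a + 1)
    have g2 := h4 (2 * Nat.pair q a + 1)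
    rw [e] at g1 g2
    exact ⟨Pool.Agent.Helper88.EL.to_log_cls hq hqa g1,
      Pool.Agent.Helper88.EL.to_log_cls hq hqa g2⟩
  · have g1 := h3' (2 * i)
    rw [Pool.Agent.Helper88.EL.seqs_even] at g1
    exact g1

end Pool.Agent.Results.MP_9b2bac_nt.ComputableDigits
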