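import Mathlib
import Pool.Agent.Helper88.EL.Fin

set_option autoImplicit false

/-!
# Martin-Löf random digits: for which computable sets of primes are there infinitely many prime
values?

For a sequence `b` of binary digits let `num b p` be the integer with the digits
`b 0, …, b (p - 1)` (the most significant first); if all the digits are `1` this is the Mersenne
number `2 ^ p - 1`.  For a sequence `N` of integers and a set of primes, given by `s`, let `M N s n`
be the number of primes `p ≤ n` of the set for which the `p`-rough part of `N p` is prime, and let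
`V s n` be the sum of `log p / p` over the primes `p ≤ n` of the set.

We prove a dichotomy for **every** Martin-Löf random sequence `b` and every computable set of
primes: if `V s n → ∞` then there are infinitely many primes `p` of the set for which the `p`-rough
part of `num b p` is prime, and `M (num b) s n / V s n → e ^ γ / log 2`; if `V s n` is bounded then
there are only finitely many.  The same holds for the integers `A p + num b (m p)` with computable
leading blocks `A p` and `m p` free digits, if `m p / p → 1`.
-/

namespace Pool.Agent.Results.MP_9b2bac_nt.MartinLofDigits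

open Filter Topology MeasureTheory
open Pool.Agent.Helper88.EL (num Schnorr MartinLof roughPart M V Lead dgs)

/-- **The dichotomy for Martin-Löf random digits.** -/
theorem result :
    -- almost every sequence is Martin-Löf random
    (∀ᵐ t ∂(volume.restrict (Set.Ico (0 : ℝ) 1)), MartinLof (dgs t)) ∧
    -- the integers with the digits `b 0, …, b (p - 1)`
    (∀ b : ℕ → Bool, MartinLof b → ∀ s : ℕ → Bool, Computable s →
      ({p : ℕ | p.Prime ∧ s p = true ∧ (roughPart p (num b p)).Prime}.Infinite ↔
        Tendsto (V s) atTop atTop) ∧
      (Tendsto (V s) atTop atTop → Tendsto (fun n : ℕ => (M (num b) s n : ℝ) / V s n) atTop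
        (𝓝 (Real.exp Real.eulerMascheroniConstant / Real.log 2)))) ∧
    -- prescribed leading digits
    (∀ b : ℕ → Bool, MartinLof b → ∀ A m : ℕ → ℕ, Lead A m →
      (∀ δ : ℝ, 0 < δ → ∀ᶠ p : ℕ in atTop, (1 - δ) * p ≤ m p) →
      ∀ s : ℕ → Bool, Computable s →
      ({p : ℕ | p.Prime ∧ s p = true ∧ (roughPart p (A p + num b (m p))).Prime}.Infinite ↔
        Tendsto (V s) atTop atTop) ∧
      (Tendsto (V s) atTop atTop →
        Tendsto (fun n : ℕ => (M (fun p => A p + num b (m p)) s n : ℝ) / V s n) atTop
          (𝓝 (Real.exp Real.eulerMascheroniConstant / Real.log 2)))) := by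
  refine ⟨Pool.Agent.Helper88.EL.ae_ml, fun b hb s hs => ?_, fun b hb A m h hbig s hs => ?_⟩
  · have h1 : Tendsto (V s) atTop atTop → Tendsto (fun n : ℕ => (M (num b) s n : ℝ) / V s n) atTop
        (𝓝 (Real.exp Real.eulerMascheroniConstant / Real.log 2)) := fun hV =>
      Pool.Agent.Helper88.EL.plain_schnorr hb.schnorr hs hV
    refine ⟨⟨fun h2 => ?_, fun hV => ?_⟩, h1⟩
    · by_contra hV
      exact h2 (Pool.Agent.Helper88.EL.plain_fin hb hs hV)
    · exact Pool.Agent.Helper88.EL.inf_of_law Pool.Agent.Helper88.EL.cG_pos hV (h1 hV)
  · have h1 : Tendsto (V s) atTop atTop →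
        Tendsto (fun n : ℕ => (M (fun p => A p + num b (m p)) s n : ℝ) / V s n) atTop
        (𝓝 (Real.exp Real.eulerMascheroniConstant / Real.log 2)) := fun hV =>
      (Pool.Agent.Helper88.EL.lead_test h hbig hs hV).schnorr hb.schnorr
    refine ⟨⟨fun h2 => ?_, fun hV => ?_⟩, h1⟩
    · by_contra hV
      obtain ⟨δ, hδ, -, h3⟩ := Pool.Agent.Helper88.EL.one_bound
      exact h2 (h3 A m h (hbig δ hδ) s hs hV b hb)
    · exact Pool.Agent.Helper88.EL.inf_of_law Pool.Agent.Helper88.EL.cG_pos hV (h1 hV)

end Pool.Agent.Results.MP_9b2bac_nt.MartinLofDigits
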