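import Mathlib
import Pool.Agent.Helper88.EL.Ones

set_option autoImplicit false

/-!
# The Lenstra-Pomerance-Wagstaff law for every algorithmically random sequence of digits

For a sequence `b` of binary digits let `num b p` be the integer with the digits
`b 0, …, b (p - 1)` (the most significant first); if all the digits are `1` this is the Mersenne
number `2 ^ p - 1`.  For a sequence `N` of integers and a set of primes, given by `s`, let `M N s n`
be the number of primes `p ≤ n` of the set for which the `p`-rough part of `N p` is prime, and let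
`V s n` be the sum of `log p / p` over the primes `p ≤ n` of the set.

A Schnorr test is a computable sequence of clopen sets of digit sequences whose `j`-th member has
measure at most `2 ^ (-j)`; a sequence is Schnorr random if it is in only finitely many members of
each Schnorr test.  Almost every sequence is Schnorr random, every Martin-Löf random sequence is
Schnorr random.  We prove that **every** Schnorr random sequence `b` satisfies the law
`M (num b) n = (e ^ γ / log 2) log n + O((log n) ^ (1/2) (log log n) ^ (5/2))` for the set of all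
primes, and `M (num b) s n / V s n → e ^ γ / log 2` for every computable set of primes with
`V s n → ∞`, in particular for all residue classes.  The same holds for the integers
`A p + num b (m p)` with computable leading blocks `A p` and `m p` free digits: the law with the
error term if `m p ≥ p - κ p / log p`, with a positive constant `κ`, and the asymptotic law if
`m p / p → 1`; if `m p ≥ (1 - δ) p` then the law holds up to a factor `1 ± ε`.
-/

namespace Pool.Agent.Results.MP_9b2bac_nt.RandomDigits

open Filter Topology MeasureTheory Asymptotics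
open Pool.Agent.Helper88.EL (num Schnorr MartinLof roughPart M V Lead dgs)

/-- **The law for every algorithmically random sequence of digits.** -/
theorem result :
    -- the Mersenne numbers are the case of the sequence with all digits equal to `1`
    (∀ n, M (num fun _ => true) (fun _ => true) n =
      ((Finset.range (n + 1)).filter (fun p => p.Prime ∧ (2 ^ p - 1).Prime)).card) ∧
    -- almost every sequence is Schnorr random, and so is every Martin-Löf random sequence
    (∀ᵐ t ∂(volume.restrict (Set.Ico (0 : ℝ) 1)), Schnorr (dgs t)) ∧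
    (∀ b : ℕ → Bool, MartinLof b → Schnorr b) ∧
    -- the law for the integers with the digits `b 0, …, b (p - 1)`
    (∀ b : ℕ → Bool, Schnorr b →
      ((fun n : ℕ => (M (num b) (fun _ => true) n : ℝ) -
          Real.exp Real.eulerMascheroniConstant / Real.log 2 * Real.log n) =O[atTop]
        fun n : ℕ => Real.sqrt (Real.log n) * (Real.log (Real.log n)) ^ ((5 : ℝ) / 2)) ∧
      (∀ s : ℕ → Bool, Computable s → Tendsto (V s) atTop atTop →
        Tendsto (fun n : ℕ => (M (num b) s n : ℝ) / V s n) atTop
          (𝓝 (Real.exp Real.eulerMascheroniConstant / Real.log 2))) ∧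
      (∀ q a : ℕ, 1 ≤ q → a.Coprime q →
        Tendsto (fun n : ℕ => (M (num b) (fun p => decide (p % q = a % q)) n : ℝ) / Real.log n)
          atTop (𝓝 (Real.exp Real.eulerMascheroniConstant / Real.log 2 / Nat.totient q)))) ∧
    -- prescribed leading digits
    (∃ κ : ℝ, 0 < κ ∧ ∀ b : ℕ → Bool, Schnorr b → ∀ A m : ℕ → ℕ, Lead A m →
      (∀ᶠ p : ℕ in atTop, (p : ℝ) - κ * p / Real.log p ≤ m p) →
      (fun n : ℕ => (M (fun p => A p + num b (m p)) (fun _ => true) n : ℝ) -
          Real.exp Real.eulerMascheroniConstant / Real.log 2 * Real.log n) =O[atTop]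
        fun n : ℕ => Real.sqrt (Real.log n) * (Real.log (Real.log n)) ^ ((5 : ℝ) / 2)) ∧
    (∀ b : ℕ → Bool, Schnorr b → ∀ A m : ℕ → ℕ, Lead A m →
      (∀ δ : ℝ, 0 < δ → ∀ᶠ p : ℕ in atTop, (1 - δ) * p ≤ m p) →
      ∀ s : ℕ → Bool, Computable s → Tendsto (V s) atTop atTop →
      Tendsto (fun n : ℕ => (M (fun p => A p + num b (m p)) s n : ℝ) / V s n) atTop
        (𝓝 (Real.exp Real.eulerMascheroniConstant / Real.log 2))) ∧
    -- a positive proportion of prescribed leading digits
    (∀ ε : ℝ, 0 < ε → ∃ δ : ℝ, 0 < δ ∧ δ < 1 ∧ ∀ b : ℕ → Bool, Schnorr b →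
      ∀ A m : ℕ → ℕ, Lead A m → (∀ᶠ p : ℕ in atTop, (1 - δ) * p ≤ m p) →
      ∀ s : ℕ → Bool, Computable s → Tendsto (V s) atTop atTop → ∀ᶠ n in atTop,
      (1 - ε) * (Real.exp Real.eulerMascheroniConstant / Real.log 2) * V s n ≤
        M (fun p => A p + num b (m p)) s n ∧
      (M (fun p => A p + num b (m p)) s n : ℝ) ≤
        (1 + ε) * (Real.exp Real.eulerMascheroniConstant / Real.log 2) * V s n) := by
  refine ⟨Pool.Agent.Helper88.EL.M_true, ?_, fun b hb => hb.schnorr,
    fun b hb => ⟨Pool.Agent.Helper88.EL.plain_err_schnorr hb,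
      fun s hs hV => Pool.Agent.Helper88.EL.plain_schnorr hb hs hV, fun q a hq ha => ?_⟩, ?_,
    fun b hb A m h hbig s hs hV => ?_, fun ε hε => ?_⟩
  · filter_upwards [Pool.Agent.Helper88.EL.ae_ml] with t ht
    exact ht.schnorr
  · exact Pool.Agent.Helper88.EL.to_log_cls hq ha (Pool.Agent.Helper88.EL.plain_schnorr hb
      (Pool.Agent.Helper88.EL.comp_cls q a) (Pool.Agent.Helper88.EL.V_cls_tendsto hq ha))
  · obtain ⟨κ, hκ, h⟩ := Pool.Agent.Helper88.EL.err_test
    exact ⟨κ, hκ, fun b hb A m hL hbig => (h A m hL hbig).schnorr hb⟩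
  · exact (Pool.Agent.Helper88.EL.lead_test h hbig hs hV).schnorr hb
  · obtain ⟨δ, hδ, hδ1, h1⟩ := Pool.Agent.Helper88.EL.lead_testE hε
    exact ⟨δ, hδ, hδ1, fun b hb A m h hbig s hs hV => (h1 A m h hbig s hs hV).schnorr hb⟩

end Pool.Agent.Results.MP_9b2bac_nt.RandomDigits
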